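import Mathlib

/-!
# MP_4aa424_co, Q1 (Irani): First-Fit on chordal graphs of every clique number

Every vertex of a binomial tree is replaced by a clique with `m = k / 2` vertices (the root by a
clique with `k - m` vertices), and adjacent vertices of the tree by completely joined cliques. The
graph is chordal with clique number `k`, and First-Fit uses `m` new colours for every colour that it
uses on the tree.
-/

set_option autoImplicit false

namespace Pool.Agent.Results.MP_4aa424_co.ChordalFirstFit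

open Finset

/-- `G` is chordal: every cycle `f 0, f 1, ..., f (l - 1)` of length `l ≥ 4` (an injective map `f`
from the integers modulo `l`, consecutive values being adjacent) has a chord, i.e. an edge joining
two non-consecutive vertices of the cycle. -/
def IsChordal {V : Type*} (G : SimpleGraph V) : Prop :=
  ∀ l : ℕ, 4 ≤ l → ∀ f : ZMod l → V, Function.Injective f → (∀ i, G.Adj (f i) (f (i + 1))) →
    ∃ i j : ZMod l, j ≠ i ∧ j ≠ i + 1 ∧ i ≠ j + 1 ∧ G.Adj (f i) (f j)

/-- `c` is the colouring that First-Fit makes on `G` when the vertices come in the order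
`σ 0, σ 1, ..., σ (n - 1)`: every vertex receives the least positive integer that is not the colour
of an earlier neighbour. -/
def IsFirstFit {V : Type*} {n : ℕ} (G : SimpleGraph V) (σ : Fin n ≃ V) (c : V → ℕ) : Prop :=
  ∀ s : Fin n, IsLeast {a : ℕ | 1 ≤ a ∧ ∀ r < s, G.Adj (σ r) (σ s) → c (σ r) ≠ a} (c (σ s))

/-- The First-Fit chromatic number of a graph: the largest number of colours that First-Fit uses,
over all orderings of the vertices. -/
noncomputable def chiFF {V : Type*} [Fintype V] (G : SimpleGraph V) : ℕ :=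
  sSup {t : ℕ | ∃ (σ : Fin (Fintype.card V) ≃ V) (c : V → ℕ), IsFirstFit G σ c ∧
    (Set.range c).ncard = t}

/-- Sanity check: for every ordering there is exactly one First-Fit colouring. -/
theorem existsUnique_isFirstFit {V : Type*} {n : ℕ} (G : SimpleGraph V) (σ : Fin n ≃ V) :
    ∃! c : V → ℕ, IsFirstFit G σ c := by
  classical
  have hne : ∀ (s : Fin n) (g : Fin n → ℕ),
      ∃ a, IsLeast {a : ℕ | 1 ≤ a ∧ ∀ r < s, G.Adj (σ r) (σ s) → g r ≠ a} a := by
    intro s g
    have h : ({a : ℕ | 1 ≤ a ∧ ∀ r < s, G.Adj (σ r) (σ s) → g r ≠ a} : Set ℕ).Nonempty := by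
      refine ⟨(∑ r, g r) + 1, Nat.le_add_left _ _, fun r _ _ => ?_⟩
      have := Finset.single_le_sum (f := g) (fun i _ => Nat.zero_le _) (Finset.mem_univ r)
      omega
    exact ⟨sInf _, Nat.sInf_mem h, fun b hb => Nat.sInf_le hb⟩
  -- existence for the colours of the positions
  have hex : ∀ m : ℕ, ∃ g : Fin n → ℕ, ∀ s : Fin n, s.1 < m →
      IsLeast {a : ℕ | 1 ≤ a ∧ ∀ r < s, G.Adj (σ r) (σ s) → g r ≠ a} (g s) := by
    intro m
    induction m with
    | zero => exact ⟨fun _ => 0, fun s hs => absurd hs (Nat.not_lt_zero _)⟩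
    | succ m ih =>
      obtain ⟨g, hg⟩ := ih
      by_cases hm : m < n
      · obtain ⟨a, ha⟩ := hne ⟨m, hm⟩ g
        refine ⟨Function.update g ⟨m, hm⟩ a, fun s hs => ?_⟩
        have hset : {a : ℕ | 1 ≤ a ∧ ∀ r < s, G.Adj (σ r) (σ s) →
            Function.update g ⟨m, hm⟩ a r ≠ a} = {a : ℕ | 1 ≤ a ∧ ∀ r < s, G.Adj (σ r) (σ s) →
            Function.update g ⟨m, hm⟩ a r ≠ a} := rfl
        have hset' : {b : ℕ | 1 ≤ b ∧ ∀ r < s, G.Adj (σ r) (σ s) →
            Function.update g ⟨m, hm⟩ a r ≠ b} = {b : ℕ | 1 ≤ b ∧ ∀ r < s, G.Adj (σ r) (σ s) →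
            g r ≠ b} := by
          ext b
          refine and_congr_right fun _ => forall_congr' fun r => ?_
          refine forall_congr' fun hr => ?_
          rw [Function.update_of_ne]
          intro h
          rw [h] at hr
          have : m < s.1 := hr
          omega
        rw [hset']
        by_cases h : s = ⟨m, hm⟩
        · rw [h, Function.update_self]
          exact ha
        · rw [Function.update_of_ne h]
          apply hg
          have : s.1 ≠ m := fun h' => h (Fin.ext h')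
          omega
      · exact ⟨g, fun s hs => hg s (by have := s.2; omega)⟩
  obtain ⟨g, hg⟩ := hex n
  refine ⟨fun v => g (σ.symm v), fun s => ?_, ?_⟩
  · simpa using hg s s.2
  · intro c hc
    have key : ∀ m : ℕ, ∀ s : Fin n, s.1 < m → c (σ s) = g s := by
      intro m
      induction m with
      | zero => exact fun s hs => absurd hs (Nat.not_lt_zero _)
      | succ m ih =>
        intro s hs
        have h1 := hc s
        have h2 := hg s s.2
        have hset : {a : ℕ | 1 ≤ a ∧ ∀ r < s, G.Adj (σ r) (σ s) → c (σ r) ≠ a} =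
            {a : ℕ | 1 ≤ a ∧ ∀ r < s, G.Adj (σ r) (σ s) → g r ≠ a} := by
          ext b
          refine and_congr_right fun _ => forall_congr' fun r => ?_
          refine forall_congr' fun hr => ?_
          rw [ih r (by have : r.1 < s.1 := hr; omega)]
        rw [hset] at h1
        exact h1.unique h2
    funext v
    have := key n (σ.symm v) (σ.symm v).2
    simpa using this

/-- A colouring by walls gives a lower bound for the First-Fit chromatic number. -/
theorem le_chiFF {n : ℕ} (G : SimpleGraph (Fin n)) (c : Fin n → ℕ) (h1 : ∀ v, 1 ≤ c v)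
    (h2 : ∀ u v, G.Adj u v → c u ≠ c v)
    (h3 : ∀ v a, 1 ≤ a → a < c v → ∃ u, G.Adj u v ∧ c u = a) (t : ℕ)
    (ht : ∀ a, 1 ≤ a → a ≤ t → ∃ v, c v = a) : t ≤ chiFF G := by
  classical
  obtain ⟨σ, hσ⟩ : ∃ σ : Fin n ≃ Fin n, ∀ r s : Fin n, r ≤ s → c (σ r) ≤ c (σ s) :=
    ⟨Tuple.sort c, fun r s hrs => Tuple.monotone_sort c hrs⟩
  have hσ' : ∀ r s : Fin n, c (σ r) < c (σ s) → r < s := by
    intro r s h
    by_contra hcon
    exact absurd (hσ s r (not_lt.1 hcon)) (not_le.2 h)
  let e : Fin (Fintype.card (Fin n)) ≃ Fin n := finCongr (Fintype.card_fin n)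
  have he : ∀ r s : Fin (Fintype.card (Fin n)), e r < e s ↔ r < s := by
    intro r s
    exact Iff.rfl
  have hff : IsFirstFit G (e.trans σ) c := by
    intro s
    refine ⟨⟨h1 _, fun r _ hrs => h2 _ _ hrs⟩, ?_⟩
    rintro a ⟨ha1, ha2⟩
    by_contra hcon
    rw [not_le] at hcon
    obtain ⟨u, hu1, hu2⟩ := h3 _ a ha1 hcon
    obtain ⟨r, rfl⟩ := (e.trans σ).surjective u
    refine ha2 r ?_ hu1 hu2
    rw [← he]
    apply hσ'
    rw [← hu2] at hcon
    exact hcon
  have hbdd : BddAbove {t : ℕ | ∃ (σ : Fin (Fintype.card (Fin n)) ≃ Fin n) (c : Fin n → ℕ),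
      IsFirstFit G σ c ∧ (Set.range c).ncard = t} := by
    refine ⟨n, ?_⟩
    rintro _ ⟨_, d, _, rfl⟩
    have := Set.ncard_image_le (s := (Set.univ : Set (Fin n))) (f := d)
    rw [Set.image_univ, Set.ncard_univ, Nat.card_fin] at this
    exact this
  refine le_trans ?_ (le_csSup hbdd ⟨e.trans σ, c, hff, rfl⟩)
  have hsub : ((Finset.Icc 1 t : Finset ℕ) : Set ℕ) ⊆ Set.range c := by
    intro a ha
    rw [Finset.coe_Icc, Set.mem_Icc] at ha
    exact ht a ha.1 ha.2
  have := Set.ncard_le_ncard hsub (Set.finite_range c)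
  rw [Set.ncard_coe_finset, Nat.card_Icc] at this
  omega

/-- The vertices are put into bags; the bags form a forest with the parent relation `R`. -/
def bagGraph {n : ℕ} (b : Fin n → ℕ) (iso : Fin n → Prop) (R : ℕ → ℕ → Prop) :
    SimpleGraph (Fin n) where
  Adj w w' := w ≠ w' ∧ ¬ iso w ∧ ¬ iso w' ∧ (b w = b w' ∨ R (b w) (b w') ∨ R (b w') (b w))
  symm := ⟨fun _ _ h => ⟨h.1.symm, h.2.2.1, h.2.1, by
    rcases h.2.2.2 with h | h | h
    · exact Or.inl h.symm
    · exact Or.inr (Or.inr h)
    · exact Or.inr (Or.inl h)⟩⟩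
  loopless := ⟨fun _ h => h.1 rfl⟩

theorem bagGraph_chordal {n : ℕ} (b : Fin n → ℕ) (iso : Fin n → Prop) (R : ℕ → ℕ → Prop)
    (hR : ∀ x y, R x y → x < y) (hR' : ∀ x x' y, R x y → R x' y → x = x') :
    IsChordal (bagGraph b iso R) := by
  intro l hl f hf hadj
  have : NeZero l := ⟨by omega⟩
  obtain ⟨i0, -, hi0⟩ := Finset.exists_max_image (Finset.univ : Finset (ZMod l))
    (fun i => b (f i)) ⟨0, Finset.mem_univ _⟩
  have hmax : ∀ i, b (f i) ≤ b (f i0) := fun i => hi0 i (Finset.mem_univ _)
  have hcast : ∀ d : ℕ, 0 < d → d < l → ((d : ℕ) : ZMod l) ≠ 0 := by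
    intro d hd hdl h
    rw [ZMod.natCast_eq_zero_iff] at h
    exact absurd (Nat.le_of_dvd hd h) (not_le.2 hdl)
  have h1 : (1 : ZMod l) ≠ 0 := by simpa using hcast 1 (by omega) (by omega)
  have h2 : (2 : ZMod l) ≠ 0 := by simpa using hcast 2 (by omega) (by omega)
  have h3 : (3 : ZMod l) ≠ 0 := by simpa using hcast 3 (by omega) (by omega)
  have a1 := hadj (i0 - 1)
  rw [sub_add_cancel] at a1
  have a2 := hadj i0
  refine ⟨i0 - 1, i0 + 1, ?_, ?_, ?_, ?_⟩
  · intro h
    apply h2
    linear_combination h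
  · intro h
    apply h1
    linear_combination h
  · intro h
    apply h3
    linear_combination - h
  · refine ⟨?_, a1.2.1, a2.2.2.1, ?_⟩
    · intro h
      have := hf h
      apply h2
      linear_combination - this
    · have m1 := hmax (i0 - 1)
      have m2 := hmax (i0 + 1)
      have e1 : b (f (i0 - 1)) = b (f i0) ∨ R (b (f (i0 - 1))) (b (f i0)) := by
        rcases a1.2.2.2 with h | h | h
        · exact Or.inl h
        · exact Or.inr h
        · exact absurd (hR _ _ h) (not_lt.2 m1)
      have e2 : b (f (i0 + 1)) = b (f i0) ∨ R (b (f (i0 + 1))) (b (f i0)) := by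
        rcases a2.2.2.2 with h | h | h
        · exact Or.inl h.symm
        · exact absurd (hR _ _ h) (not_lt.2 m2)
        · exact Or.inr h
      rcases e1 with e1 | e1 <;> rcases e2 with e2 | e2
      · exact Or.inl (e1.trans e2.symm)
      · rw [← e1] at e2
        exact Or.inr (Or.inr e2)
      · rw [← e2] at e1
        exact Or.inr (Or.inl e1)
      · exact Or.inl (hR' _ _ _ e1 e2)

theorem bagGraph_clique_le {n : ℕ} (b : Fin n → ℕ) (iso : Fin n → Prop) (R : ℕ → ℕ → Prop)
    (hR : ∀ x y, R x y → x < y) (hR' : ∀ x x' y, R x y → R x' y → x = x') (m e : ℕ)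
    (hm : 1 ≤ m)
    (hb : ∀ x, x ≠ 0 → {w | ¬ iso w ∧ b w = x}.ncard ≤ m)
    (hb0 : {w | ¬ iso w ∧ b w = 0}.ncard ≤ m + e) (s : Finset (Fin n))
    (hs : (bagGraph b iso R).IsClique s) : s.card ≤ m + (m + e) := by
  classical
  rcases s.eq_empty_or_nonempty with rfl | hne
  · simp
  obtain ⟨x, hx, hmax⟩ := Finset.exists_max_image s b hne
  by_cases hix : iso x
  · have : s ⊆ {x} := by
      intro y hy
      rw [Finset.mem_singleton]
      by_contra hyx
      exact (hs hy hx hyx).2.2.1 hix
    have := Finset.card_le_card this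
    rw [Finset.card_singleton] at this
    omega
  have hall : ∀ y ∈ s, ¬ iso y ∧ (b y = b x ∨ R (b y) (b x)) := by
    intro y hy
    by_cases hyx : y = x
    · rw [hyx]; exact ⟨hix, Or.inl rfl⟩
    · have h := hs hy hx hyx
      refine ⟨h.2.1, ?_⟩
      rcases h.2.2.2 with h | h | h
      · exact Or.inl h
      · exact Or.inr h
      · exact absurd (hR _ _ h) (not_lt.2 (hmax y hy))
  by_cases h0 : b x = 0
  · have hsub : (s : Set (Fin n)) ⊆ {w | ¬ iso w ∧ b w = 0} := by
      intro y hy
      obtain ⟨k1, k2⟩ := hall y hy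
      refine ⟨k1, ?_⟩
      rcases k2 with k2 | k2
      · rw [k2, h0]
      · rw [h0] at k2
        exact absurd (hR _ _ k2) (Nat.not_lt_zero _)
    have := Set.ncard_le_ncard hsub (Set.toFinite _)
    rw [Set.ncard_coe_finset] at this
    omega
  · by_cases hp : ∃ p, R p (b x)
    · obtain ⟨p, hp⟩ := hp
      have hsub : (s : Set (Fin n)) ⊆ {w | ¬ iso w ∧ b w = b x} ∪ {w | ¬ iso w ∧ b w = p} := by
        intro y hy
        obtain ⟨k1, k2⟩ := hall y hy
        rcases k2 with k2 | k2
        · exact Or.inl ⟨k1, k2⟩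
        · exact Or.inr ⟨k1, hR' _ _ _ k2 hp⟩
      have h1 := Set.ncard_le_ncard hsub (Set.toFinite _)
      have h2 := Set.ncard_union_le {w | ¬ iso w ∧ b w = b x} {w | ¬ iso w ∧ b w = p}
      have h3 := hb (b x) h0
      have h4 : {w | ¬ iso w ∧ b w = p}.ncard ≤ m + e := by
        by_cases hp0 : p = 0
        · rw [hp0]; exact hb0
        · exact (hb p hp0).trans (by omega)
      rw [Set.ncard_coe_finset] at h1
      omega
    · have hsub : (s : Set (Fin n)) ⊆ {w | ¬ iso w ∧ b w = b x} := by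
        intro y hy
        obtain ⟨k1, k2⟩ := hall y hy
        rcases k2 with k2 | k2
        · exact ⟨k1, k2⟩
        · exact absurd ⟨_, k2⟩ hp
      have h1 := Set.ncard_le_ncard hsub (Set.toFinite _)
      have h3 := hb (b x) h0
      rw [Set.ncard_coe_finset] at h1
      omega

/-- parent relation of the binomial tree on the natural numbers -/
def Par (x y : ℕ) : Prop := ∃ q, 2 ^ (q + 1) ∣ x ∧ y = x + 2 ^ q

theorem Par.lt {x y : ℕ} (h : Par x y) : x < y := by
  obtain ⟨q, -, rfl⟩ := h
  have : 0 < 2 ^ q := by positivity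
  omega

theorem val_child {x q : ℕ} (h : 2 ^ (q + 1) ∣ x) : padicValNat 2 (x + 2 ^ q) = q := by
  have hpos : 0 < 2 ^ q := by positivity
  have hne : x + 2 ^ q ≠ 0 := by omega
  have h1 : 2 ^ q ∣ x + 2 ^ q := by
    refine Nat.dvd_add ?_ dvd_rfl
    exact (pow_dvd_pow 2 (Nat.le_succ q)).trans h
  have h2 : ¬ 2 ^ (q + 1) ∣ x + 2 ^ q := by
    intro h3
    have h4 : 2 ^ (q + 1) ∣ 2 ^ q := (Nat.dvd_add_right h).1 h3
    have := Nat.le_of_dvd hpos h4
    rw [pow_succ] at this
    omega
  apply le_antisymm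
  · by_contra hcon
    rw [not_le] at hcon
    apply h2
    exact (padicValNat_dvd_iff_le hne).2 hcon
  · exact (padicValNat_dvd_iff_le hne).1 h1

theorem Par.unique {x x' y : ℕ} (h : Par x y) (h' : Par x' y) : x = x' := by
  obtain ⟨q, hq, rfl⟩ := h
  obtain ⟨q', hq', he⟩ := h'
  have h1 := val_child hq
  have h2 := val_child hq'
  rw [← he, h1] at h2
  subst h2
  omega

/-- the colour of a vertex of the binomial tree with `2 ^ h` vertices, minus one -/
noncomputable def vv (h x : ℕ) : ℕ := if x = 0 then h else padicValNat 2 x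

theorem vv_dvd {h x : ℕ} : 2 ^ vv h x ∣ x := by
  unfold vv
  split_ifs with h0
  · rw [h0]; exact dvd_zero _
  · exact pow_padicValNat_dvd

theorem vv_child {h x q : ℕ} (hq : 2 ^ (q + 1) ∣ x) : vv h (x + 2 ^ q) = q := by
  unfold vv
  rw [if_neg, val_child hq]
  have : 0 < 2 ^ q := by positivity
  omega

theorem vv_lt_of_par {h x y : ℕ} (hy : y < 2 ^ h) (hp : Par x y) : vv h y < vv h x := by
  obtain ⟨q, hq, rfl⟩ := hp
  rw [vv_child hq]
  unfold vv
  split_ifs with h0
  · rw [h0, zero_add] at hy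
    exact (Nat.pow_lt_pow_iff_right (by norm_num)).1 hy
  · exact (padicValNat_dvd_iff_le h0).1 hq

/-- every vertex `x` of the tree has a child of each smaller colour -/
theorem child_exists {h x q : ℕ} (hx : x < 2 ^ h) (hq : q < vv h x) :
    Par x (x + 2 ^ q) ∧ x + 2 ^ q < 2 ^ h := by
  have h1 : 2 ^ (q + 1) ∣ x := (pow_dvd_pow 2 hq).trans vv_dvd
  refine ⟨⟨q, h1, rfl⟩, ?_⟩
  have hqh : q + 1 ≤ h := by
    unfold vv at hq
    split_ifs at hq with h0
    · exact hq
    · by_contra hcon
      rw [not_le] at hcon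
      have h2 : 2 ^ h ∣ x := (pow_dvd_pow 2 (by omega)).trans h1
      have := Nat.le_of_dvd (Nat.pos_of_ne_zero h0) h2
      omega
  obtain ⟨a, ha⟩ := h1
  obtain ⟨d, hd⟩ := Nat.exists_eq_add_of_le hqh
  have e1 : 2 ^ h = 2 ^ (q + 1) * 2 ^ d := by rw [hd, pow_add]
  have hpos : 0 < 2 ^ (q + 1) := by positivity
  rw [e1, ha] at hx
  have ha' : a < 2 ^ d := lt_of_mul_lt_mul_left hx (Nat.zero_le _)
  have h3 : 2 ^ (q + 1) * (a + 1) ≤ 2 ^ (q + 1) * 2 ^ d := Nat.mul_le_mul_left _ ha'
  rw [← e1, mul_add, mul_one, ← ha] at h3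
  have : 2 ^ (q + 1) = 2 * 2 ^ q := by rw [pow_succ]; ring
  have h4 : 0 < 2 ^ q := by positivity
  omega

section construction

variable (n m e h : ℕ)

/-- the bag of the vertex `w` -/
def bag (w : Fin n) : ℕ := if w.1 < m * 2 ^ h then w.1 / m else 0

/-- the isolated vertices -/
def iso (w : Fin n) : Prop := m * 2 ^ h + e ≤ w.1

/-- the graph -/
def GG : SimpleGraph (Fin n) := bagGraph (bag n m h) (iso n m e h) Par

theorem GG_chordal : IsChordal (GG n m e h) :=
  bagGraph_chordal _ _ _ (fun _ _ h => h.lt) (fun _ _ _ h h' => h.unique h')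

variable {n m e h}

theorem bag_card (hm : 1 ≤ m) (x : ℕ) (hx : x ≠ 0) :
    {w | ¬ iso n m e h w ∧ bag n m h w = x}.ncard ≤ m := by
  have hinj : Set.InjOn (fun w : Fin n => w.1 % m)
      {w | ¬ iso n m e h w ∧ bag n m h w = x} := by
    rintro u ⟨-, hu⟩ v ⟨-, hv⟩ huv
    simp only at huv
    unfold bag at hu hv
    split_ifs at hu with hu'
    · split_ifs at hv with hv'
      · apply Fin.ext
        rw [← Nat.div_add_mod u.1 m, ← Nat.div_add_mod v.1 m, hu, hv, huv]
      · exact absurd hv.symm hx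
    · exact absurd hu.symm hx
  have hmap : Set.MapsTo (fun w : Fin n => w.1 % m)
      {w | ¬ iso n m e h w ∧ bag n m h w = x} (Finset.range m : Set ℕ) := by
    intro w _
    rw [Finset.coe_range]
    exact Nat.mod_lt _ hm
  have := Set.ncard_le_ncard_of_injOn _ hmap hinj (Finset.finite_toSet _)
  rwa [Set.ncard_coe_finset, Finset.card_range] at this

theorem bag_card_zero (hm : 1 ≤ m) :
    {w | ¬ iso n m e h w ∧ bag n m h w = 0}.ncard ≤ m + e := by
  have hinj : Set.InjOn (fun w : Fin n => if w.1 < m * 2 ^ h then w.1 else m + (w.1 - m * 2 ^ h))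
      {w | ¬ iso n m e h w ∧ bag n m h w = 0} := by
    rintro u ⟨-, hu⟩ v ⟨-, hv⟩ huv
    simp only at huv
    unfold bag at hu hv
    apply Fin.ext
    split_ifs at hu with hu'
    · rw [if_pos hu'] at huv
      rw [Nat.div_eq_zero_iff] at hu
      split_ifs at hv with hv'
      · rw [if_pos hv'] at huv
        exact huv
      · rw [if_neg hv'] at huv
        omega
    · rw [if_neg hu'] at huv
      split_ifs at hv with hv'
      · rw [if_pos hv'] at huv
        rw [Nat.div_eq_zero_iff] at hv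
        omega
      · rw [if_neg hv'] at huv
        omega
  have hmap : Set.MapsTo
      (fun w : Fin n => if w.1 < m * 2 ^ h then w.1 else m + (w.1 - m * 2 ^ h))
      {w | ¬ iso n m e h w ∧ bag n m h w = 0} (Finset.range (m + e) : Set ℕ) := by
    rintro w ⟨hw1, hw2⟩
    rw [Finset.coe_range, Set.mem_Iio]
    unfold iso at hw1
    unfold bag at hw2
    simp only
    split_ifs with hw'
    · rw [if_pos hw', Nat.div_eq_zero_iff] at hw2
      omega
    · omega
  have := Set.ncard_le_ncard_of_injOn _ hmap hinj (Finset.finite_toSet _)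
  rwa [Set.ncard_coe_finset, Finset.card_range] at this

theorem cliqueNum_GG (hm : 1 ≤ m) (hh : 1 ≤ h) (hn : m * 2 ^ h + e ≤ n) :
    (GG n m e h).cliqueNum = m + (m + e) := by
  classical
  have h2 : m * 2 ≤ m * 2 ^ h := Nat.mul_le_mul_left _ (by
    calc 2 = 2 ^ 1 := by norm_num
      _ ≤ 2 ^ h := Nat.pow_le_pow_right (by norm_num) hh)
  apply le_antisymm
  · obtain ⟨s, hs⟩ := (GG n m e h).exists_isNClique_cliqueNum
    rw [← hs.card_eq]
    exact bagGraph_clique_le _ _ _ (fun _ _ h => h.lt) (fun _ _ _ h h' => h.unique h') m e hm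
      (fun x hx => bag_card hm x hx) (bag_card_zero hm) s hs.isClique
  · -- the clique formed by the bags `0` and `1`
    let g : Fin (m + (m + e)) → Fin n := fun i =>
      if hi : i.1 < m * 2 then ⟨i.1, by omega⟩ else ⟨m * 2 ^ h + (i.1 - m * 2), by
        have := i.2; omega⟩
    have hg1 : ∀ i : Fin (m + (m + e)), i.1 < m * 2 → (g i).1 = i.1 := by
      intro i hi
      simp only [g, dif_pos hi]
    have hg2 : ∀ i : Fin (m + (m + e)), ¬ i.1 < m * 2 → (g i).1 = m * 2 ^ h + (i.1 - m * 2) := by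
      intro i hi
      simp only [g, dif_neg hi]
    have hinj : Function.Injective g := by
      intro i j hij
      have hij' := congrArg Fin.val hij
      apply Fin.ext
      by_cases hi : i.1 < m * 2
      · rw [hg1 i hi] at hij'
        by_cases hj : j.1 < m * 2
        · rw [hg1 j hj] at hij'; exact hij'
        · rw [hg2 j hj] at hij'; omega
      · rw [hg2 i hi] at hij'
        by_cases hj : j.1 < m * 2
        · rw [hg1 j hj] at hij'; omega
        · rw [hg2 j hj] at hij'; omega
    have hiso : ∀ i, ¬ iso n m e h (g i) := by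
      intro i
      unfold iso
      rw [not_le]
      by_cases hi : i.1 < m * 2
      · rw [hg1 i hi]; omega
      · rw [hg2 i hi]; have := i.2; omega
    have hbag : ∀ i, bag n m h (g i) = 0 ∨ bag n m h (g i) = 1 := by
      intro i
      unfold bag
      by_cases hi : i.1 < m * 2
      · rw [hg1 i hi, if_pos (by omega)]
        have h3 : i.1 / m < 2 := by
          rw [Nat.div_lt_iff_lt_mul hm, mul_comm]
          exact hi
        generalize i.1 / m = z at h3 ⊢
        omega
      · rw [hg2 i hi, if_neg (by omega)]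
        exact Or.inl rfl
    have hpar : Par 0 1 := ⟨0, dvd_zero _, by norm_num⟩
    have hcl : (GG n m e h).IsNClique (m + (m + e)) (Finset.univ.image g) := by
      refine ⟨?_, ?_⟩
      · intro u hu v hv huv
        rw [Finset.mem_coe, Finset.mem_image] at hu hv
        obtain ⟨i, -, rfl⟩ := hu
        obtain ⟨j, -, rfl⟩ := hv
        refine ⟨huv, hiso i, hiso j, ?_⟩
        rcases hbag i with k1 | k1 <;> rcases hbag j with k2 | k2 <;> rw [k1, k2]
        · exact Or.inl rfl
        · exact Or.inr (Or.inl hpar)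
        · exact Or.inr (Or.inr hpar)
        · exact Or.inl rfl
      · rw [Finset.card_image_of_injective _ hinj, Finset.card_univ, Fintype.card_fin]
    exact hcl.isClique.card_le_cliqueNum.trans' hcl.card_eq.ge

/-- the colours -/
noncomputable def col (n m e h : ℕ) (w : Fin n) : ℕ :=
  if w.1 < m * 2 ^ h then vv h (w.1 / m) * m + w.1 % m + 1
  else if w.1 < m * 2 ^ h + e then (h + 1) * m + 1 + (w.1 - m * 2 ^ h) else 1

theorem vv_le {h x : ℕ} (hx : x < 2 ^ h) : vv h x ≤ h := by
  unfold vv
  split_ifs with h0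
  · exact le_rfl
  · by_contra hcon
    rw [not_le] at hcon
    have h1 : 2 ^ h ∣ x := (padicValNat_dvd_iff_le h0).2 hcon.le
    have := Nat.le_of_dvd (Nat.pos_of_ne_zero h0) h1
    omega

theorem col_ge (w : Fin n) : 1 ≤ col n m e h w := by
  unfold col
  split_ifs <;> omega

theorem div_lt_pow {w : ℕ} (_hm : 1 ≤ m) (hw : w < m * 2 ^ h) : w / m < 2 ^ h := by
  rw [Nat.div_lt_iff_lt_mul _hm, mul_comm]
  exact hw

theorem col_reg_lt (hm : 1 ≤ m) {w : ℕ} (hw : w < m * 2 ^ h) :
    vv h (w / m) * m + w % m + 1 ≤ (h + 1) * m := by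
  have h1 := vv_le (div_lt_pow hm hw)
  have h2 := Nat.mod_lt w hm
  have h3 : vv h (w / m) * m ≤ h * m := Nat.mul_le_mul_right _ h1
  have h4 : (h + 1) * m = h * m + m := by ring
  omega

/-- comparison of block numbers -/
theorem block_lt {m p q r s : ℕ} (hr : r < m) (hpq : p < q) : p * m + r + 1 < q * m + s + 1 := by
  have : (p + 1) * m ≤ q * m := Nat.mul_le_mul_right _ hpq
  have h2 : (p + 1) * m = p * m + m := by ring
  omega

theorem col_proper (hm : 1 ≤ m) (u v : Fin n) (huv : (GG n m e h).Adj u v) :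
    col n m e h u ≠ col n m e h v := by
  wlog hbag : bag n m h u = bag n m h v ∨ Par (bag n m h u) (bag n m h v) generalizing u v with H
  · rcases huv.2.2.2 with h' | h' | h'
    · exact absurd (Or.inl h') hbag
    · exact absurd (Or.inr h') hbag
    · exact (H v u huv.symm (Or.inr h')).symm
  have hu := huv.2.1
  have hv := huv.2.2.1
  have hne : u.1 ≠ v.1 := fun h => huv.1 (Fin.ext h)
  unfold iso at hu hv
  rw [not_le] at hu hv
  unfold col
  by_cases hu' : u.1 < m * 2 ^ h
  · rw [if_pos hu']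
    by_cases hv' : v.1 < m * 2 ^ h
    · rw [if_pos hv']
      have ebu : bag n m h u = u.1 / m := if_pos hu'
      have ebv : bag n m h v = v.1 / m := if_pos hv'
      rw [ebu, ebv] at hbag
      rcases hbag with hb | hb
      · rw [hb]
        intro hcon
        apply hne
        rw [← Nat.div_add_mod u.1 m, ← Nat.div_add_mod v.1 m, hb]
        omega
      · have h1 := vv_lt_of_par (h := h) (div_lt_pow hm hv') hb
        exact (block_lt (Nat.mod_lt _ hm) h1).ne'
    · rw [if_neg hv', if_pos hv]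
      have := col_reg_lt hm hu'
      omega
  · rw [if_neg hu', if_pos hu]
    by_cases hv' : v.1 < m * 2 ^ h
    · rw [if_pos hv']
      have := col_reg_lt hm hv'
      omega
    · rw [if_neg hv', if_pos hv]
      omega

theorem col_wall (hm : 1 ≤ m) (he : e ≤ 1) (hn : m * 2 ^ h + e ≤ n) (v : Fin n) (a : ℕ)
    (ha : 1 ≤ a) (hav : a < col n m e h v) : ∃ u, (GG n m e h).Adj u v ∧ col n m e h u = a := by
  obtain ⟨q, r, hr, hqr⟩ : ∃ q r, r < m ∧ a = q * m + r + 1 := by
    refine ⟨(a - 1) / m, (a - 1) % m, Nat.mod_lt _ hm, ?_⟩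
    have := Nat.div_add_mod (a - 1) m
    rw [mul_comm] at this
    omega
  have hpow : 0 < 2 ^ h := by positivity
  -- a vertex with given bag and position
  have hvert : ∀ y, y < 2 ^ h → ∃ u : Fin n, u.1 = y * m + r ∧ u.1 < m * 2 ^ h ∧ u.1 / m = y ∧
      u.1 % m = r := by
    intro y hy
    have h1 : y * m + r < m * 2 ^ h := by
      have : (y + 1) * m ≤ 2 ^ h * m := Nat.mul_le_mul_right _ hy
      have e1 : (y + 1) * m = y * m + m := by ring
      have e2 : 2 ^ h * m = m * 2 ^ h := mul_comm _ _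
      omega
    refine ⟨⟨y * m + r, by omega⟩, rfl, h1, ?_, ?_⟩
    · simp only
      rw [mul_comm, Nat.mul_add_div (by omega), Nat.div_eq_of_lt hr, add_zero]
    · simp only
      rw [mul_comm, Nat.mul_add_mod, Nat.mod_eq_of_lt hr]
  by_cases hv' : v.1 < m * 2 ^ h
  · have hcv : col n m e h v = vv h (v.1 / m) * m + v.1 % m + 1 := if_pos hv'
    rw [hcv, hqr] at hav
    have hx := div_lt_pow hm hv'
    have ebv : bag n m h v = v.1 / m := if_pos hv'
    have hvi : ¬ iso n m e h v := by unfold iso; omega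
    rcases lt_trichotomy q (vv h (v.1 / m)) with hlt | heq | hgt
    · obtain ⟨hp, hy⟩ := child_exists hx hlt
      obtain ⟨u, hu1, hu2, hu3, hu4⟩ := hvert _ hy
      have ebu : bag n m h u = v.1 / m + 2 ^ q := by rw [bag, if_pos hu2, hu3]
      refine ⟨u, ⟨?_, ?_, hvi, ?_⟩, ?_⟩
      · intro h'
        rw [h'] at ebu
        rw [ebv] at ebu
        have : 0 < 2 ^ q := by positivity
        omega
      · unfold iso; omega
      · rw [ebu, ebv]
        exact Or.inr (Or.inr hp)
      · rw [col, if_pos hu2, hu3, hu4, vv_child ((pow_dvd_pow 2 hlt).trans vv_dvd), hqr]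
    · obtain ⟨u, hu1, hu2, hu3, hu4⟩ := hvert _ hx
      have ebu : bag n m h u = v.1 / m := by rw [bag, if_pos hu2, hu3]
      refine ⟨u, ⟨?_, ?_, hvi, ?_⟩, ?_⟩
      · intro h'
        rw [h'] at hu4
        rw [heq] at hav
        omega
      · unfold iso; omega
      · rw [ebu, ebv]
        exact Or.inl rfl
      · rw [col, if_pos hu2, hu3, hu4, hqr, heq]
    · have := block_lt (s := r) (Nat.mod_lt v.1 hm) hgt
      omega
  · by_cases hv2 : v.1 < m * 2 ^ h + e
    · have hve : v.1 = m * 2 ^ h := by omega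
      have hcv : col n m e h v = (h + 1) * m + 1 := by
        rw [col, if_neg hv', if_pos hv2]
        omega
      rw [hcv, hqr] at hav
      have ebv : bag n m h v = 0 := if_neg hv'
      have hvi : ¬ iso n m e h v := by unfold iso; omega
      have hqh : q ≤ h := by
        by_contra hcon
        rw [not_le] at hcon
        have : (h + 1) * m ≤ q * m := Nat.mul_le_mul_right _ hcon
        omega
      rcases hqh.lt_or_eq with hlt | heq
      · have hlt' : q < vv h 0 := by rw [vv, if_pos rfl]; exact hlt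
        obtain ⟨hp, hy⟩ := child_exists hpow hlt'
        obtain ⟨u, hu1, hu2, hu3, hu4⟩ := hvert _ hy
        have ebu : bag n m h u = 0 + 2 ^ q := by rw [bag, if_pos hu2, hu3]
        refine ⟨u, ⟨?_, ?_, hvi, ?_⟩, ?_⟩
        · intro h'
          rw [h'] at hu2
          omega
        · unfold iso; omega
        · rw [ebu, ebv]
          exact Or.inr (Or.inr hp)
        · rw [col, if_pos hu2, hu3, hu4, vv_child (dvd_zero _), hqr]
      · obtain ⟨u, hu1, hu2, hu3, hu4⟩ := hvert 0 hpow
        have ebu : bag n m h u = 0 := by rw [bag, if_pos hu2, hu3]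
        refine ⟨u, ⟨?_, ?_, hvi, ?_⟩, ?_⟩
        · intro h'
          rw [h'] at hu2
          omega
        · unfold iso; omega
        · rw [ebu, ebv]
          exact Or.inl rfl
        · rw [col, if_pos hu2, hu3, hu4, hqr, heq, vv, if_pos rfl]
    · have hcv : col n m e h v = 1 := by
        rw [col, if_neg hv', if_neg hv2]
      omega

theorem chiFF_GG (hm : 1 ≤ m) (he : e ≤ 1) (hn : m * 2 ^ h + e ≤ n) :
    (h + 1) * m ≤ chiFF (GG n m e h) := by
  apply le_chiFF _ (col n m e h) col_ge (col_proper hm) (col_wall hm he hn)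
  intro a ha1 ha2
  -- the vertex of bag `0` with position `m - 1` has colour `(h + 1) m`
  have hpow : 0 < 2 ^ h := by positivity
  have hmp : m ≤ m * 2 ^ h := Nat.le_mul_of_pos_right _ hpow
  let w : Fin n := ⟨m - 1, by omega⟩
  have hw : col n m e h w = (h + 1) * m := by
    have h1 : w.1 = m - 1 := rfl
    rw [col, if_pos (by omega), h1, Nat.div_eq_of_lt (by omega), Nat.mod_eq_of_lt (by omega), vv,
      if_pos rfl]
    have : (h + 1) * m = h * m + m := by ring
    omega
  rcases ha2.lt_or_eq with hlt | heq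
  · obtain ⟨u, -, hu⟩ := col_wall (e := e) hm he hn w a ha1 (by rw [hw]; exact hlt)
    exact ⟨u, hu⟩
  · exact ⟨w, by rw [hw, heq]⟩

end construction

/-- **Theorem.** For all `k ≥ 2` and `n ≥ k ^ 2` there is a chordal graph with `n` vertices and
clique number `k` whose First-Fit chromatic number is at least `(1 / 6) k log₂ n`. -/
theorem result (k : ℕ) (hk : 2 ≤ k) (n : ℕ) (hn : k ^ 2 ≤ n) :
    ∃ G : SimpleGraph (Fin n), IsChordal G ∧ G.cliqueNum = k ∧
      1 / 6 * (k : ℝ) * Real.logb 2 n ≤ (chiFF G : ℝ) := by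
  obtain ⟨m, e, he, hkm⟩ : ∃ m e, e ≤ 1 ∧ k = 2 * m + e :=
    ⟨k / 2, k % 2, by omega, by omega⟩
  have hm : 1 ≤ m := by omega
  have hn4 : 4 ≤ n := by nlinarith
  -- the height
  have hq : m * 2 ≤ n - e := by
    have h1 : k * 2 ≤ k ^ 2 := by nlinarith
    omega
  set h := Nat.log 2 ((n - e) / m) with hh
  have hdiv : 2 ≤ (n - e) / m := by
    rw [Nat.le_div_iff_mul_le (by omega), mul_comm]
    exact hq
  have hne : (n - e) / m ≠ 0 := by omega
  have h1 : 2 ^ h ≤ (n - e) / m := Nat.pow_log_le_self 2 hne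
  have h2 : (n - e) / m < 2 ^ (h + 1) := Nat.lt_pow_succ_log_self (by norm_num) _
  have hh1 : 1 ≤ h := Nat.log_pos (by norm_num) hdiv
  have hN : m * 2 ^ h + e ≤ n := by
    have h3 : m * 2 ^ h ≤ m * ((n - e) / m) := Nat.mul_le_mul_left _ h1
    have h4 := Nat.mul_div_le (n - e) m
    omega
  have hN2 : n ≤ m * 2 ^ (h + 1) := by
    rw [Nat.div_lt_iff_lt_mul (by omega), mul_comm] at h2
    omega
  refine ⟨GG n m e h, GG_chordal n m e h, ?_, ?_⟩
  · rw [cliqueNum_GG hm hh1 hN]
    omega
  · have hχ := chiFF_GG (n := n) hm he hN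
    have hχ' : (((h + 1) * m : ℕ) : ℝ) ≤ (chiFF (GG n m e h) : ℝ) := by exact_mod_cast hχ
    refine le_trans ?_ hχ'
    push_cast
    -- `k ≤ 3 m`
    have hk3 : (k : ℝ) ≤ 3 * m := by
      have : k ≤ 3 * m := by omega
      exact_mod_cast this
    have hnpos : (0 : ℝ) < n := by
      have : 0 < n := by omega
      exact_mod_cast this
    have hmpos : (0 : ℝ) < m := by exact_mod_cast hm
    have hlog0 : 0 ≤ Real.logb 2 n := by
      apply Real.logb_nonneg (by norm_num)
      have : 1 ≤ n := by omega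
      exact_mod_cast this
    -- `log n ≤ log m + (h + 1)`
    have hL1 : Real.logb 2 n ≤ Real.logb 2 m + (h + 1) := by
      have h5 : (n : ℝ) ≤ m * 2 ^ (h + 1) := by exact_mod_cast hN2
      calc Real.logb 2 n ≤ Real.logb 2 (m * 2 ^ (h + 1)) :=
            Real.logb_le_logb_of_le (by norm_num) hnpos h5
        _ = Real.logb 2 m + Real.logb 2 (2 ^ (h + 1)) := by
            rw [Real.logb_mul hmpos.ne' (by positivity)]
        _ = Real.logb 2 m + (h + 1) := by
            rw [Real.logb_pow, Real.logb_self_eq_one (by norm_num), mul_one]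
            push_cast
            ring
    -- `2 log m ≤ log n`
    have hL2 : 2 * Real.logb 2 m ≤ Real.logb 2 n := by
      have h6 : (m : ℝ) ^ 2 ≤ n := by
        have h7 : m ^ 2 ≤ k ^ 2 := Nat.pow_le_pow_left (by omega) 2
        exact_mod_cast h7.trans hn
      have h8 : Real.logb 2 ((m : ℝ) ^ 2) ≤ Real.logb 2 n :=
        Real.logb_le_logb_of_le (by norm_num) (by positivity) h6
      rw [Real.logb_pow] at h8
      exact_mod_cast h8
    have hL3 : 1 / 2 * Real.logb 2 n ≤ (h : ℝ) + 1 := by linarith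
    calc 1 / 6 * (k : ℝ) * Real.logb 2 n ≤ 1 / 6 * (3 * m) * Real.logb 2 n := by
          apply mul_le_mul_of_nonneg_right _ hlog0
          linarith
      _ = m * (1 / 2 * Real.logb 2 n) := by ring
      _ ≤ m * ((h : ℝ) + 1) := mul_le_mul_of_nonneg_left hL3 hmpos.le
      _ = ((h : ℝ) + 1) * m := by ring

end Pool.Agent.Results.MP_4aa424_co.ChordalFirstFit
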